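import Pool.Agent.helper78.WB.SpecIII

/-!
# Project wb, Part III, row LOCE
-/

set_option autoImplicit false

namespace Pool.Agent.WB

open MvPolynomial

/-- the images of the variables -/
noncomputable def locv {K : Type} [Field K] (j : Fin 3) (ζ : Fin 3 → K) : Fin 3 → MvPolynomial (Fin 2) K :=
  Fin.insertNth j (C (ζ j) : MvPolynomial (Fin 2) K) (fun t : Fin 2 => X t + C (ζ (j.succAbove t)))

theorem locv_self {K : Type} [Field K] (j : Fin 3) (ζ : Fin 3 → K) : locv j ζ j = C (ζ j) := by
  unfold locv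
  exact Fin.insertNth_apply_same _ _ _

theorem locv_succ {K : Type} [Field K] (j : Fin 3) (ζ : Fin 3 → K) (t : Fin 2) :
    locv j ζ (j.succAbove t) = X t + C (ζ (j.succAbove t)) := by
  unfold locv
  exact Fin.insertNth_apply_succAbove _ _ _ _

theorem loc_eq {K : Type} [Field K] (j : Fin 3) (ζ : Fin 3 → K) (f : MvPolynomial (Fin 3) K) :
    loc j ζ f = aeval (locv j ζ) f := rfl

theorem locv_deg {K : Type} [Field K] (j : Fin 3) (ζ : Fin 3 → K) (i : Fin 3) :
    (locv j ζ i).totalDegree ≤ 1 := by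
  rcases Fin.eq_self_or_eq_succAbove j i with h | ⟨t, h⟩
  · subst h
    rw [locv_self, totalDegree_C]
    omega
  · subst h
    rw [locv_succ]
    refine (totalDegree_add _ _).trans ?_
    rw [totalDegree_C, totalDegree_X]
    simp

theorem loc_coeff_zero {K : Type} [Field K] (j : Fin 3) (ζ : Fin 3 → K) (f : MvPolynomial (Fin 3) K) :
    coeff 0 (loc j ζ f) = eval ζ f := by
  rw [loc_eq]
  have h : ((constantCoeff : MvPolynomial (Fin 2) K →+* K).comp
      ((aeval (locv j ζ) : MvPolynomial (Fin 3) K →ₐ[K] MvPolynomial (Fin 2) K) :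
        MvPolynomial (Fin 3) K →+* MvPolynomial (Fin 2) K)) = eval ζ := by
    apply MvPolynomial.ringHom_ext
    · intro a
      simp
    · intro i
      simp only [RingHom.coe_comp, RingHom.coe_coe, Function.comp_apply, aeval_X, eval_X]
      rcases Fin.eq_self_or_eq_succAbove j i with h | ⟨t, h⟩
      · subst h
        rw [locv_self, constantCoeff_C]
      · subst h
        rw [locv_succ, map_add, constantCoeff_X, constantCoeff_C, zero_add]
  have h2 := RingHom.congr_fun h f
  simpa [constantCoeff_eq] using h2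

theorem loc_deg {K : Type} [Field K] (j : Fin 3) (ζ : Fin 3 → K) (f : MvPolynomial (Fin 3) K) (n : ℕ)
    (hf : f.IsHomogeneous n) : (loc j ζ f).totalDegree ≤ n := by
  rw [loc_eq, aeval_def, eval₂_eq']
  refine totalDegree_finsetSum_le (fun ν hν => ?_)
  have hdeg : ν.degree = n := by
    have h1 := hf (mem_support_iff.1 hν)
    rw [← h1, Finsupp.degree_eq_weight_one]; rfl 
  refine (totalDegree_mul _ _).trans ?_
  have h1 : (algebraMap K (MvPolynomial (Fin 2) K) (coeff ν f)).totalDegree = 0 := by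
    rw [algebraMap_eq, totalDegree_C]
  rw [h1, zero_add]
  refine (totalDegree_finsetProd _ _).trans ?_
  rw [← hdeg, Finsupp.degree_eq_sum]
  refine Finset.sum_le_sum (fun i _ => ?_)
  refine (totalDegree_pow _ _).trans ?_
  calc ν i * (locv j ζ i).totalDegree ≤ ν i * 1 := Nat.mul_le_mul_left _ (locv_deg j ζ i)
    _ = ν i := Nat.mul_one _

/-- the exponent without the entry `j` -/
noncomputable def rst (j : Fin 3) (ν : Fin 3 →₀ ℕ) : Fin 2 →₀ ℕ :=
  Finsupp.equivFunOnFinite.symm (fun t => ν (j.succAbove t))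

theorem rst_inj (j : Fin 3) (ν ν' : Fin 3 →₀ ℕ) (h : rst j ν = rst j ν') (hd : ν.degree = ν'.degree) :
    ν = ν' := by
  have h1 : ∀ t, ν (j.succAbove t) = ν' (j.succAbove t) := by
    intro t
    have := DFunLike.congr_fun h t
    exact this
  have h2 : ν j = ν' j := by
    rw [Finsupp.degree_eq_sum, Finsupp.degree_eq_sum, Fin.sum_univ_succAbove _ j,
      Fin.sum_univ_succAbove _ j] at hd
    have h3 : ∑ t, ν (j.succAbove t) = ∑ t, ν' (j.succAbove t) :=
      Finset.sum_congr rfl (fun t _ => h1 t)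
    omega
  ext i
  rcases Fin.eq_self_or_eq_succAbove j i with h | ⟨t, h⟩
  · subst h; exact h2
  · subst h; exact h1 t

/-- specialisation of the variable `j` -/
noncomputable def spv {K : Type} [Field K] (j : Fin 3) (a : K) : Fin 3 → MvPolynomial (Fin 2) K :=
  Fin.insertNth j (C a : MvPolynomial (Fin 2) K) (fun t : Fin 2 => X t)

theorem spv_self {K : Type} [Field K] (j : Fin 3) (a : K) : spv j a j = C a := by
  unfold spv
  exact Fin.insertNth_apply_same _ _ _

theorem spv_succ {K : Type} [Field K] (j : Fin 3) (a : K) (t : Fin 2) :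
    spv j a (j.succAbove t) = X t := by
  unfold spv
  exact Fin.insertNth_apply_succAbove _ _ _ _

theorem tr_loc {K : Type} [Field K] (j : Fin 3) (ζ : Fin 3 → K) (f : MvPolynomial (Fin 3) K) :
    aeval (fun t : Fin 2 => (X t - C (ζ (j.succAbove t)) : MvPolynomial (Fin 2) K)) (loc j ζ f) =
      aeval (spv j (ζ j)) f := by
  rw [loc_eq]
  have h : ((aeval (fun t : Fin 2 => (X t - C (ζ (j.succAbove t)) : MvPolynomial (Fin 2) K)) :
        MvPolynomial (Fin 2) K →ₐ[K] MvPolynomial (Fin 2) K).comp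
      (aeval (locv j ζ) : MvPolynomial (Fin 3) K →ₐ[K] MvPolynomial (Fin 2) K)) =
      aeval (spv j (ζ j)) := by
    apply MvPolynomial.algHom_ext
    intro i
    simp only [AlgHom.coe_comp, Function.comp_apply, aeval_X]
    rcases Fin.eq_self_or_eq_succAbove j i with h | ⟨t, h⟩
    · subst h
      rw [locv_self, spv_self, ← algebraMap_eq, AlgHom.commutes]
    · subst h
      rw [locv_succ, spv_succ, map_add, aeval_X, ← algebraMap_eq, AlgHom.commutes]
      ring
  exact AlgHom.congr_fun h f

theorem spv_monomial {K : Type} [Field K] (j : Fin 3) (a : K) (ν : Fin 3 →₀ ℕ) :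
    ∏ i, spv j a i ^ ν i = monomial (rst j ν) (a ^ ν j) := by
  rw [Fin.prod_univ_succAbove _ j, spv_self]
  have h1 : ∏ t, spv j a (j.succAbove t) ^ ν (j.succAbove t) = monomial (rst j ν) (1 : K) := by
    rw [monomial_eq, C_1, one_mul, Finsupp.prod_fintype _ _ (fun i => pow_zero _)]
    refine Finset.prod_congr rfl (fun t _ => ?_)
    rw [spv_succ]
    rfl
  rw [h1, ← C_pow, C_mul_monomial, mul_one]

theorem sp_eq {K : Type} [Field K] (j : Fin 3) (a : K) (f : MvPolynomial (Fin 3) K) :
    aeval (spv j a) f = ∑ ν ∈ f.support, monomial (rst j ν) (coeff ν f * a ^ ν j) := by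
  rw [aeval_def, eval₂_eq']
  refine Finset.sum_congr rfl (fun ν _ => ?_)
  rw [spv_monomial, algebraMap_eq, C_mul_monomial]

theorem LOCE : LOCE_stmt := by
  intro K _ j ζ
  refine ⟨loc_coeff_zero j ζ, ?_⟩
  intro hj f n m hf hnm hord
  have hL : loc j ζ f = 0 := by
    ext μ
    rw [coeff_zero]
    by_contra hμ
    have h1 : μ.degree ≤ (loc j ζ f).totalDegree := by
      have := le_totalDegree (mem_support_iff.2 hμ)
      rw [Finsupp.degree_eq_sum]
      rw [Finsupp.sum_fintype _ _ (fun i => rfl)] at this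
      exact this
    have h2 := loc_deg j ζ f n hf
    exact hμ (hord μ (by omega))
  have hg : aeval (spv j (ζ j)) f = 0 := by
    rw [← tr_loc, hL, map_zero]
  rw [sp_eq] at hg
  ext ν₀
  rw [coeff_zero]
  by_contra hν₀
  have h0 : ν₀ ∈ f.support := mem_support_iff.2 hν₀
  have hdeg : ∀ ν ∈ f.support, ν.degree = n := by
    intro ν hν
    have h1 := hf (mem_support_iff.1 hν)
    rw [← h1, Finsupp.degree_eq_weight_one]; rfl
  have h1 := congrArg (coeff (rst j ν₀)) hg
  rw [coeff_sum, coeff_zero, Finset.sum_eq_single ν₀] at h1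
  · rw [coeff_monomial, if_pos rfl] at h1
    rcases mul_eq_zero.1 h1 with h2 | h2
    · exact hν₀ h2
    · exact pow_ne_zero _ hj h2
  · intro ν hν hne
    rw [coeff_monomial, if_neg]
    intro h2
    exact hne (rst_inj j ν ν₀ h2 ((hdeg ν hν).trans (hdeg ν₀ h0).symm))
  · intro h2
    exact absurd h0 h2

end Pool.Agent.WB
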