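import Pool.Agent.helper79.WB.SpecII

/-!
# Project wb, Part II, row MUN
-/

set_option autoImplicit false

namespace Pool.Agent.WB

theorem MUN : MUN_stmt := by
  intro ξ δ hδ
  refine ⟨max 1 ⌈(10 : ℝ) ^ (1 / δ)⌉₊, fun N hN => ?_⟩
  have hN1 : 1 ≤ N := le_trans (le_max_left _ _) hN
  have hN2 : ⌈(10 : ℝ) ^ (1 / δ)⌉₊ ≤ N := le_trans (le_max_right _ _) hN
  have hNR : (0 : ℝ) < (N : ℝ) := by exact_mod_cast hN1
  have h1 : (10 : ℝ) ^ (1 / δ) ≤ (N : ℝ) := le_trans (Nat.le_ceil _) (by exact_mod_cast hN2)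
  have h2 : (10 : ℝ) ≤ (N : ℝ) ^ δ := by
    have h3 := Real.rpow_le_rpow (by positivity) h1 hδ.le
    rw [← Real.rpow_mul (by norm_num), one_div_mul_cancel hδ.ne', Real.rpow_one] at h3
    exact h3
  have h4 : (N : ℝ) ^ (ξ + δ) / (N : ℝ) ^ (ξ - δ) = (N : ℝ) ^ (2 * δ) := by
    rw [← Real.rpow_sub hNR]
    congr 1
    ring
  have h5 : (N : ℝ) ^ (2 * δ) = (N : ℝ) ^ δ * (N : ℝ) ^ δ := by
    rw [← Real.rpow_add hNR]
    congr 1
    ring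
  have h6 : (N : ℝ) ^ (3 * δ) = (N : ℝ) ^ δ * (N : ℝ) ^ δ * (N : ℝ) ^ δ := by
    rw [← Real.rpow_add hNR, ← Real.rpow_add hNR]
    congr 1
    ring
  rw [h4, h5, h6]
  set t : ℝ := (N : ℝ) ^ δ with ht
  nlinarith [mul_self_nonneg t, mul_nonneg (by linarith : (0 : ℝ) ≤ t - 10) (mul_self_nonneg t)]

end Pool.Agent.WB
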